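import Pool.Agent.ASE.Stmts3
import Pool.Agent.Helper10_ASO.W12B
import Pool.Agent.Helper79_ASO.WTHD

/-!
# Squad ASE, row HYC: `HY` in terms of characters
-/

open scoped BigOperators

noncomputable section

namespace Pool.Agent.PP.SE.H55

open Pool.Agent.Helper51_AWC Pool.Agent.Helper79_WRA Pool.Agent.PP Pool.Agent.PP.KF
open Pool.Agent.PP.K9 Pool.Agent.PP.K9.H97 Pool.Agent.PP.H75 Pool.Agent.PP.T3 Pool.Agent.PP.SO
open Pool.Agent.PP.SD Pool.Agent.PP.SO.H10W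

attribute [local instance] Ideal.Quotient.field

/-- membership in the centraliser of a generated subgroup -/
theorem mem_C_closure {F V₀ G : Type} [CommGroup V₀] [Group G] (B : Bk F V₀ G) (A : Subgroup V₀)
    (T : Set (V₀ × ℕ)) (hA : Subgroup.closure {α | ∃ t ∈ T, t.1 = α} = A) (x : G) :
    x ∈ B.C A ↔ ∀ t ∈ T, B.i t.1 * x = x * B.i t.1 := by
  have h1 : B.C A = Subgroup.centralizer (B.i '' {α | ∃ t ∈ T, t.1 = α}) := by
    unfold Bk.C
    rw [← hA, MonoidHom.map_closure, Subgroup.centralizer_closure]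
  rw [h1, Subgroup.mem_centralizer_iff]
  constructor
  · intro h t ht
    exact h _ ⟨_, ⟨t, ht, rfl⟩, rfl⟩
  · rintro h _ ⟨_, ⟨t, ht, rfl⟩, rfl⟩
    exact h t ht

open Classical in
/-- the condition for `y` and `z = x ^ m` -/
def Ph {F V₀ G : Type} [CommGroup V₀] [Group G] (B : Bk F V₀ G) (T : Set (V₀ × ℕ))
    (z y : G) : ℂ :=
  if ∀ t ∈ T, y⁻¹ * B.i t.1 * y = B.i t.1 * z ^ t.2 then 1 else 0

theorem ph_inv {F V₀ G : Type} [CommGroup V₀] [Group G] (B : Bk F V₀ G) (A : Subgroup V₀)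
    (T : Set (V₀ × ℕ)) (hA : Subgroup.closure {α | ∃ t ∈ T, t.1 = α} = A) (z y v : G)
    (hv : v ∈ B.C A) : Ph B T z (v * y) = Ph B T z y := by
  rw [mem_C_closure B A T hA] at hv
  unfold Ph
  congr 1
  apply propext
  refine forall₂_congr fun t ht => ?_
  have h1 := hv t ht
  generalize B.i t.1 = a at h1 ⊢
  have h2 : (v * y)⁻¹ * a * (v * y) = y⁻¹ * a * y := by
    calc (v * y)⁻¹ * a * (v * y) = y⁻¹ * v⁻¹ * (a * v) * y := by group
      _ = y⁻¹ * v⁻¹ * (v * a) * y := by rw [h1]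
      _ = y⁻¹ * a * y := by group
  rw [h2]

theorem hyc (czb : CzbStmt) : HycStmt := by
  classical
  intro ℓ _ M _ hM hℓ V₀ G _ _ _ _ E₀ hF B hB n m hPE A a T ha hA
  have iG : Fintype G := Fintype.ofFinite G
  have iH : Fintype (B.C A) := Fintype.ofFinite (B.C A)
  have hexp := (czb ℓ M hM hℓ V₀ G E₀ hF B hB A).2.1 a ha
  have hHc : (Fintype.card (B.C A) : ℂ) ≠ 0 := by
    exact_mod_cast Fintype.card_ne_zero
  have hNc : (Nat.card (B.C A) : ℂ) = Fintype.card (B.C A) := by rw [Nat.card_eq_fintype_card]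
  -- the set `S`
  let S : Set (G × G) := {w | w.1 ∈ B.C A ∧ w.2 * w.1 * w.2⁻¹ ∈ B.C A}
  have hkap : ∀ w : G × G, SO.kap w.1 w.2 = w.1 * (w.2 * w.1 * w.2⁻¹)⁻¹ := by
    intro w
    unfold SO.kap
    group
  have hSkap : ∀ w : G × G, w.1 ∈ B.C A → SO.kap w.1 w.2 ∈ B.C A → w ∈ S := by
    intro w h1 h2
    refine ⟨h1, ?_⟩
    rw [hkap] at h2
    have h3 := (B.C A).mul_mem ((B.C A).inv_mem h1) h2
    rw [inv_mul_cancel_left] at h3
    exact (B.C A).inv_mem_iff.1 h3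
  have hSkap' : ∀ w : G × G, w ∈ S → SO.kap w.1 w.2 ∈ B.C A := by
    intro w hw
    rw [hkap]
    exact (B.C A).mul_mem hw.1 ((B.C A).inv_mem hw.2)
  have hSm : ∀ (z : B.C A) w, em (B.C A) z w ∈ S ↔ w ∈ S := by
    intro z w
    have e2 : ((z : G) * w.2) * w.1 * ((z : G) * w.2)⁻¹ =
        (z : G) * (w.2 * w.1 * w.2⁻¹) * (z : G)⁻¹ := by group
    show (w.1 ∈ B.C A ∧ ((z : G) * w.2) * w.1 * ((z : G) * w.2)⁻¹ ∈ B.C A) ↔ _
    rw [e2, Subgroup.mul_mem_cancel_right _ ((B.C A).inv_mem z.2),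
      Subgroup.mul_mem_cancel_left _ z.2]
    rfl
  -- step 1: the left side as one sum
  have s1 : HY B m A a T = (Nat.card (B.C A) : ℂ)⁻¹ *
      ∑ w : G × G, (if w ∈ S then a (SO.kap w.1 w.2) * Ph B T (w.1 ^ m) w.2 else 0) := by
    unfold HY
    congr 1
    rw [finsum_eq_sum_of_fintype]
    simp only [ncard_sum, Finset.mul_sum]
    rw [Finset.sum_comm]
    refine Finset.sum_congr rfl fun w _ => ?_
    rw [Finset.sum_eq_single (SO.kap w.1 w.2)]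
    · by_cases hw : w ∈ S
      · rw [if_pos hw]
        unfold Ph
        have h1 := (mem_C_closure B A T hA w.1).1 hw.1
        by_cases h2 : ∀ t ∈ T, w.2⁻¹ * B.i t.1 * w.2 = B.i t.1 * (w.1 ^ m) ^ t.2
        · rw [if_pos ⟨rfl, fun t ht => ⟨h1 t ht, h2 t ht⟩⟩, if_pos h2]
        · rw [if_neg (fun h => h2 fun t ht => (h.2 t ht).2), if_neg h2]
      · rw [if_neg hw]
        by_cases h1 : w.1 ∈ B.C A
        · rw [ha.sup _ (fun h => hw (hSkap w h1 h)), zero_mul]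
        · rw [if_neg, mul_zero]
          rintro ⟨-, h2⟩
          exact h1 ((mem_C_closure B A T hA w.1).2 fun t ht => (h2 t ht).1)
    · intro g _ hg
      rw [if_neg, mul_zero]
      rintro ⟨h1, -⟩
      exact hg h1.symm
    · intro h
      exact absurd (Finset.mem_univ _) h
  -- step 2: the characters
  obtain ⟨X, hX⟩ : ∃ X, X = (H79.ch_finite B A).toFinset := ⟨_, rfl⟩
  have hXm : ∀ χ, χ ∈ X ↔ χ ∈ Ch B A := by
    intro χ
    rw [hX, Set.Finite.mem_toFinset]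
  have s4 : ∀ g ∈ B.C A, a g = ∑ χ ∈ X, cv a χ * (χ 1 / Nat.card (B.C A)) * χ g⁻¹ := by
    intro g hg
    rw [hexp g hg, finsum_mem_eq_finite_toFinset_sum _ (H79.ch_finite B A), hX]
  have s5 : ∀ χ ∈ X, ∑ w, (if w ∈ S then χ (SO.kap w.1 w.2)⁻¹ * Ph B T (w.1 ^ m) w.2 else 0) =
      (χ 1)⁻¹ * ∑ w, (if w ∈ S then
        Ph B T (w.1 ^ m) w.2 * (χ (w.2 * w.1 * w.2⁻¹) * χ w.1⁻¹) else 0) := by
    intro χ hχ
    have n1 : χ 1 ≠ 0 := H79.one_sub _ ((hXm χ).1 hχ).2.1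
    have e1 := avg (B.C A) S (em (B.C A)) hSm
      (fun w => χ (SO.kap w.1 w.2)⁻¹ * Ph B T (w.1 ^ m) w.2)
    have e2 : ∑ w, (if w ∈ S then ∑ z : B.C A,
        χ (SO.kap (em (B.C A) z w).1 (em (B.C A) z w).2)⁻¹ *
          Ph B T ((em (B.C A) z w).1 ^ m) (em (B.C A) z w).2 else 0) =
        ∑ w, (if w ∈ S then (Fintype.card (B.C A) : ℂ) *
          (χ (w.2 * w.1 * w.2⁻¹) * χ w.1⁻¹ / χ 1) * Ph B T (w.1 ^ m) w.2 else 0) := by
      refine Finset.sum_congr rfl fun w _ => ?_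
      by_cases hw : w ∈ S
      · rw [if_pos hw, if_pos hw]
        have h1 := ch_avg ((hXm χ).1 hχ) hw.2 ((B.C A).inv_mem hw.1)
        rw [← h1, Finset.sum_mul]
        refine Finset.sum_congr rfl fun z _ => ?_
        have e3 : (SO.kap w.1 ((z : G) * w.2))⁻¹ =
            (z : G) * (w.2 * w.1 * w.2⁻¹) * (z : G)⁻¹ * w.1⁻¹ := by
          unfold SO.kap
          group
        show χ (SO.kap w.1 ((z : G) * w.2))⁻¹ * Ph B T (w.1 ^ m) ((z : G) * w.2) = _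
        rw [e3, ph_inv B A T hA _ _ _ z.2]
      · rw [if_neg hw, if_neg hw]
    rw [e2] at e1
    have e3 : ∑ w, (if w ∈ S then (Fintype.card (B.C A) : ℂ) *
          (χ (w.2 * w.1 * w.2⁻¹) * χ w.1⁻¹ / χ 1) * Ph B T (w.1 ^ m) w.2 else 0) =
        (Fintype.card (B.C A) : ℂ) * ((χ 1)⁻¹ *
        ∑ w, (if w ∈ S then
          Ph B T (w.1 ^ m) w.2 * (χ (w.2 * w.1 * w.2⁻¹) * χ w.1⁻¹) else 0)) := by
      rw [Finset.mul_sum, Finset.mul_sum]
      refine Finset.sum_congr rfl fun w _ => ?_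
      split_ifs
      · field_simp
      · simp
    rw [e3] at e1
    exact mul_left_cancel₀ hHc e1
  -- step 3: the sums `SL`
  have s6 : ∀ χ ∈ X, ∑ w, (if w ∈ S then
        Ph B T (w.1 ^ m) w.2 * (χ (w.2 * w.1 * w.2⁻¹) * χ w.1⁻¹) else 0) =
      starRingEnd ℂ (SL B m (LT T) χ χ) := by
    intro χ hχ
    have hχ' := (hXm χ).1 hχ
    unfold SL
    rw [finsum_mem_def, finsum_eq_sum_of_fintype, map_sum]
    let e : G × G ≃ G × G := Equiv.prodCongr (Equiv.refl G) (Equiv.inv G)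
    refine Eq.trans ?_ (Equiv.sum_comp e _)
    refine Finset.sum_congr rfl fun w _ => ?_
    rw [Set.indicator_apply]
    have hmem : e w ∈ {w : G × G | ∀ s ∈ LT T, w.2 * B.i s.2.1 * w.2⁻¹ =
        B.i s.1 * (w.1 ^ m) ^ s.2.2} ↔
        ∀ t ∈ T, w.2⁻¹ * B.i t.1 * w.2 = B.i t.1 * (w.1 ^ m) ^ t.2 := by
      constructor
      · intro h t ht
        have h1 : w.2⁻¹ * B.i t.1 * (w.2⁻¹)⁻¹ = B.i t.1 * (w.1 ^ m) ^ ((t.2 : ℕ) : ℤ) :=
          h _ ⟨t, ht, rfl⟩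
        rw [inv_inv, zpow_natCast] at h1
        exact h1
      · rintro h _ ⟨t, ht, rfl⟩
        show w.2⁻¹ * B.i t.1 * (w.2⁻¹)⁻¹ = B.i t.1 * (w.1 ^ m) ^ ((t.2 : ℕ) : ℤ)
        rw [inv_inv, zpow_natCast]
        exact h t ht
    have hterm : starRingEnd ℂ (χ (e w).1 * χ ((e w).2⁻¹ * (e w).1⁻¹ * (e w).2)) =
        χ (w.2 * w.1 * w.2⁻¹) * χ w.1⁻¹ := by
      have e1 : (e w).2⁻¹ * (e w).1⁻¹ * (e w).2 = w.2 * w.1⁻¹ * w.2⁻¹ := by
        show (w.2⁻¹)⁻¹ * w.1⁻¹ * w.2⁻¹ = w.2 * w.1⁻¹ * w.2⁻¹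
        rw [inv_inv]
      rw [e1, map_mul, ch_star hχ', ch_star hχ']
      have e2 : (w.2 * w.1⁻¹ * w.2⁻¹)⁻¹ = w.2 * w.1 * w.2⁻¹ := by group
      rw [e2, mul_comm]
      rfl
    by_cases hw : w ∈ S
    · rw [if_pos hw]
      unfold Ph
      by_cases h2 : ∀ t ∈ T, w.2⁻¹ * B.i t.1 * w.2 = B.i t.1 * (w.1 ^ m) ^ t.2
      · rw [if_pos h2, if_pos (hmem.2 h2), hterm, one_mul]
      · rw [if_neg h2, if_neg (fun h => h2 (hmem.1 h)), zero_mul, map_zero]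
    · rw [if_neg hw]
      have h5 : χ (w.2 * w.1 * w.2⁻¹) * χ w.1⁻¹ = 0 := by
        by_cases h6 : w.1 ∈ B.C A
        · rw [hχ'.1 _ (fun h => hw ⟨h6, h⟩), zero_mul]
        · rw [hχ'.1 w.1⁻¹ (fun h => h6 ((B.C A).inv_mem_iff.1 h)), mul_zero]
      by_cases h7 : e w ∈ {w : G × G | ∀ s ∈ LT T, w.2 * B.i s.2.1 * w.2⁻¹ =
        B.i s.1 * (w.1 ^ m) ^ s.2.2}
      · rw [if_pos h7, hterm, h5]
      · rw [if_neg h7, map_zero]
  have s7 : ∑ w, (if w ∈ S then a (SO.kap w.1 w.2) * Ph B T (w.1 ^ m) w.2 else 0) =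
      (Fintype.card (B.C A) : ℂ)⁻¹ * ∑ χ ∈ X, cv a χ * starRingEnd ℂ (SL B m (LT T) χ χ) := by
    have e1 : ∀ w : G × G, (if w ∈ S then a (SO.kap w.1 w.2) * Ph B T (w.1 ^ m) w.2 else 0) =
        ∑ χ ∈ X, cv a χ * (χ 1 / Nat.card (B.C A)) *
          (if w ∈ S then χ (SO.kap w.1 w.2)⁻¹ * Ph B T (w.1 ^ m) w.2 else 0) := by
      intro w
      split_ifs with hw
      · rw [s4 _ (hSkap' w hw), Finset.sum_mul]
        refine Finset.sum_congr rfl fun χ _ => ?_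
        ring
      · simp
    simp only [e1]
    rw [Finset.sum_comm, Finset.mul_sum]
    refine Finset.sum_congr rfl fun χ hχ => ?_
    have n1 : χ 1 ≠ 0 := H79.one_sub _ ((hXm χ).1 hχ).2.1
    rw [← Finset.mul_sum, s5 χ hχ, s6 χ hχ, hNc]
    field_simp
  rw [s1, s7, hNc, finsum_mem_eq_finite_toFinset_sum _ (H79.ch_finite B A), ← hX]
  ring

end Pool.Agent.PP.SE.H55
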