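import Pool.Agent.ASE.Stmts3
import Pool.Agent.Helper10_ASO.W12B
import Pool.Agent.Helper79_ASO.WTHD

/-!
# Squad ASE, row HYF: `HY` at `fm`
-/

open scoped BigOperators

noncomputable section

namespace Pool.Agent.PP.SE.H55

open Pool.Agent.Helper51_AWC Pool.Agent.Helper79_WRA Pool.Agent.PP Pool.Agent.PP.KF
open Pool.Agent.PP.K9 Pool.Agent.PP.K9.H97 Pool.Agent.PP.H75 Pool.Agent.PP.T3 Pool.Agent.PP.SO
open Pool.Agent.PP.SD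

attribute [local instance] Ideal.Quotient.field

theorem pr_1 {V₀ : Type} [CommGroup V₀] (ℓ : ℕ) (E₀ : Subgroup (MulAut V₀)) (W : Subgroup V₀) :
    pr ℓ E₀ W 1 = 1 := by
  unfold pr
  simp

theorem mem_mp' {V₀ : Type} [CommGroup V₀] (σ : MulAut V₀) (W : Subgroup V₀) (v : V₀) :
    σ v ∈ mp σ W ↔ v ∈ W := by
  unfold mp
  rw [Subgroup.mem_map]
  constructor
  · rintro ⟨x, hx, h⟩
    have h1 : σ x = σ v := h
    rwa [← σ.injective h1]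
  · intro h
    exact ⟨v, h, rfl⟩

theorem mem_mp_inv {V₀ : Type} [CommGroup V₀] (σ : MulAut V₀) (W : Subgroup V₀) (v : V₀) :
    v ∈ mp σ⁻¹ W ↔ σ v ∈ W := by
  have h1 := mem_mp' σ⁻¹ W (σ v)
  have h2 : σ⁻¹ (σ v) = v := by
    rw [MulAut.inv_apply]
    exact σ.symm_apply_apply v
  rw [h2] at h1
  exact h1

theorem mp_inv {V₀ : Type} [CommGroup V₀] (σ : MulAut V₀) (W : Subgroup V₀) (h : mp σ W = W) :
    mp σ⁻¹ W = W := by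
  ext v
  rw [mem_mp_inv]
  constructor
  · intro h1
    rw [← h] at h1
    exact (mem_mp' σ W v).1 h1
  · intro h1
    rw [← h]
    exact (mem_mp' σ W v).2 h1

theorem fx_inv (fmb : FmbStmt) (acb : AcbStmt) {ℓ : ℕ} [Fact ℓ.Prime]
    {M : Ideal (integralClosure ℤ ℂ)} [M.IsMaximal]
    (hM : (ℓ : integralClosure ℤ ℂ) ∈ M) (hℓ : ℓ ≠ 2) {V₀ G : Type} [CommGroup V₀] [Finite V₀]
    [Group G] [Finite G] {E₀ : Subgroup (MulAut V₀)} (hF : Fq ℓ V₀ E₀) {B : Bk (FF M) V₀ G}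
    (hB : Sb ℓ M E₀ B) {D : Rd V₀ G} (hD : Rs ℓ E₀ B D) {A : Subgroup V₀} (hA : A ≠ ⊥)
    {g : MulAut V₀} (hg : g ∈ E₀) (hgA : mp g A = A) : D.fx A g⁻¹ = D.fx A g := by
  classical
  have iG : Fintype G := Fintype.ofFinite G
  have hgA' := mp_inv g A hgA
  have hfm := (fmb ℓ M hM hℓ V₀ G E₀ hF B hB D hD A hA).2.2.2.2.2.1
  have hn : (nS E₀ A : ℂ) ≠ 0 := by
    have h1 : Finite (MulAut V₀) :=
      Finite.of_injective (fun σ : MulAut V₀ => (σ : V₀ → V₀)) DFunLike.coe_injective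
    unfold nS
    exact_mod_cast Nat.card_pos.ne'
  have hux : ux D.U A 1 = 1 := by
    unfold ux
    rw [if_pos A.one_mem]
  -- the value of the sum
  have key : ∀ h ∈ E₀, mp h A = A → ∑ᶠ χ ∈ Ch B A, D.R A χ (ac B h⁻¹ χ) =
      ((D.fx A h : ℚ) : ℂ) - 1 := by
    intro h hh hhA
    have h1 := hD.d8 A hA h hh hhA 1 A.one_mem 1
    rw [pr_1, one_mul, if_pos rfl, hux] at h1
    have h2 : ∑ᶠ χ ∈ Ch B A, cv (fm ℓ E₀ B D A 1) χ * nu B χ 1 * D.R A χ (ac B h⁻¹ χ) =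
        (nS E₀ A : ℂ) * ∑ᶠ χ ∈ Ch B A, D.R A χ (ac B h⁻¹ χ) := by
      rw [mul_finsum_mem]
      refine finsum_mem_congr rfl fun χ hχ => ?_
      have n1 : χ 1 ≠ 0 := H79.one_sub _ hχ.2.1
      have h3 : nu B χ 1 = 1 := by
        unfold nu
        rw [map_one, div_self n1]
      rw [hfm χ hχ, h3, mul_one]
    rw [h2] at h1
    have h4 : (nS E₀ A : ℂ) * ((1 : ℚ) : ℂ) * (((D.fx A h : ℚ) : ℂ) - 1) =
        (nS E₀ A : ℂ) * (((D.fx A h : ℚ) : ℂ) - 1) := by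
      rw [Rat.cast_one, mul_one]
    rw [h4] at h1
    exact mul_left_cancel₀ hn h1
  have k1 := key g hg hgA
  have k2 := key g⁻¹ (E₀.inv_mem hg) hgA'
  have hb := (acb ℓ M hM hℓ V₀ G E₀ hF B hB).2 A g⁻¹ (E₀.inv_mem hg)
  have hbij := hb.2.2.2.1
  rw [hgA'] at hbij
  have hcomp : ∀ χ ∈ Ch B A, ac B g (ac B g⁻¹ χ) = χ := by
    intro χ hχ
    have h1 := (hb.2.2.1 χ hχ).2.2.1 g hg
    rw [← h1, mul_inv_cancel]
    exact (hb.2.2.1 χ hχ).2.1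
  have h5 : ∑ᶠ χ ∈ Ch B A, D.R A χ (ac B g⁻¹ χ) = ∑ᶠ χ ∈ Ch B A, D.R A χ (ac B (g⁻¹)⁻¹ χ) := by
    refine finsum_mem_eq_of_bijOn (ac B g⁻¹) hbij ?_
    intro χ hχ
    show _ = _
    rw [inv_inv, hcomp χ hχ]
    exact ((hD.d6 A hA _ (hbij.1 hχ)).2 χ hχ).1
  rw [k1, k2] at h5
  have h6 := sub_left_injective h5
  exact_mod_cast h6.symm

theorem mem_Q {V₀ : Type} [CommGroup V₀] {n : ℕ} (E₀ : Subgroup (MulAut V₀)) (κ : V₀)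
    (L : Set (SO.SS n V₀)) (w : MulAut V₀ × V₀) : w ∈ QL E₀ (LT (TL κ L)) ↔ w.1 ∈ E₀ ∧
    ∀ s ∈ L, w.1 (κ ^ (s.2.1 : ℕ) * s.2.2.1 * w.2 ^ (s.1 : ℕ)) = κ ^ (s.2.1 : ℕ) * s.2.2.1 := by
  constructor
  · rintro ⟨h1, h2⟩
    refine ⟨h1, fun s hs => ?_⟩
    have h3 := h2 _ ⟨_, ⟨s, hs, rfl⟩, rfl⟩
    have h4 : w.1 (κ ^ (s.2.1 : ℕ) * s.2.2.1 * w.2 ^ (((s.1 : ℕ) : ℕ) : ℤ)) =
      κ ^ (s.2.1 : ℕ) * s.2.2.1 := h3
    rwa [zpow_natCast] at h4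
  · rintro ⟨h1, h2⟩
    refine ⟨h1, ?_⟩
    rintro _ ⟨_, ⟨s, hs, rfl⟩, rfl⟩
    show w.1 (κ ^ (s.2.1 : ℕ) * s.2.2.1 * w.2 ^ (((s.1 : ℕ) : ℕ) : ℤ)) =
      κ ^ (s.2.1 : ℕ) * s.2.2.1
    rw [zpow_natCast]
    exact h2 s hs

/-- a sum over the fibres -/
theorem ncard_fib {X Y : Type} [Fintype X] [Fintype Y] (Q : Finset X) (S : Set X)
    (hQ : ∀ x, x ∈ Q ↔ x ∈ S) (P : X → Y → Prop) :
    ∑ x ∈ Q, (({y | P x y}.ncard : ℕ) : ℂ) = (({w : X × Y | w.1 ∈ S ∧ P w.1 w.2}.ncard : ℕ) : ℂ) := by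
  classical
  rw [H10W.ncard_sum (fun w : X × Y => w.1 ∈ S ∧ P w.1 w.2), Fintype.sum_prod_type]
  rw [← Finset.sum_subset (Finset.subset_univ Q)]
  · refine Finset.sum_congr rfl fun x hx => ?_
    rw [H10W.ncard_sum (fun y : Y => P x y)]
    refine Finset.sum_congr rfl fun y _ => ?_
    have h1 := (hQ x).1 hx
    by_cases h2 : P x y
    · rw [if_pos h2, if_pos ⟨h1, h2⟩]
    · rw [if_neg h2, if_neg (fun h => h2 h.2)]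
  · intro x _ hx
    refine Finset.sum_eq_zero fun y _ => ?_
    rw [if_neg (fun h => hx ((hQ x).2 h.1))]

theorem hyf (hyc : HycStmt) (sle : SleStmt) (cn2 : Cn2Stmt) (x3s : X3sStmt) (fmb : FmbStmt)
    (acb : AcbStmt) (czb : CzbStmt) : HyfStmt := by
  classical
  intro ℓ _ M _ hM hℓ V₀ G _ _ _ _ E₀ hF B hB D hD n m hPE κ L hA
  have hSb : Sb ℓ M E₀ B := hB.toSb
  have hcn := cn2 V₀ E₀ n κ L
  have hmQ := mem_Q E₀ κ L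
  have hM12 : M12 ℓ E₀ D.fx κ L = ∑ᶠ w ∈ {w : E₀ × V₀ | Nat.card (aL κ L) = ℓ ∧
      mp w.1 (aL κ L) = aL κ L ∧ w.2 ∈ aL κ L ∧
      w.1.1 w.2 = pr ℓ E₀ (aL κ L) κ * w.2 ∧ ∀ s ∈ L,
      w.1.1 (κ ^ (s.2.1 : ℕ) * s.2.2.1 * (w.2 ^ (s.1 : ℕ))⁻¹) = κ ^ (s.2.1 : ℕ) * s.2.2.1},
    (D.fx (aL κ L) (w.1 : MulAut V₀) - 1) := rfl
  have hF1 : Subgroup.closure {α | ∃ t ∈ TL κ L, t.1 = α} = aL κ L := by
    unfold aL TL
    congr 1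
    ext α
    constructor
    · rintro ⟨t, ⟨s, hs, rfl⟩, rfl⟩
      exact ⟨s, hs, rfl⟩
    · rintro ⟨s, hs, rfl⟩
      exact ⟨_, ⟨s, hs, rfl⟩, rfl⟩
  obtain ⟨A, hAd⟩ : ∃ A, aL κ L = A := ⟨_, rfl⟩
  obtain ⟨T, hTd⟩ : ∃ T, TL κ L = T := ⟨_, rfl⟩
  rw [hAd] at hcn hM12 hF1 hA ⊢
  rw [hTd] at hcn hmQ hF1 ⊢
  have hp1 : p1 (LT T) = A := by
    rw [← hF1]
    unfold p1 LT
    congr 1
    ext α
    constructor
    · rintro ⟨s, ⟨t, ht, rfl⟩, rfl⟩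
      exact ⟨t, ht, rfl⟩
    · rintro ⟨t, ht, rfl⟩
      exact ⟨_, ⟨t, ht, rfl⟩, rfl⟩
  have hp2 : p2 (LT T) = A := by
    rw [← hF1]
    unfold p2 LT
    congr 1
    ext α
    constructor
    · rintro ⟨s, ⟨t, ht, rfl⟩, rfl⟩
      exact ⟨t, ht, rfl⟩
    · rintro ⟨t, ht, rfl⟩
      exact ⟨_, ⟨t, ht, rfl⟩, rfl⟩
  have hs := sle ℓ M hM hℓ V₀ G E₀ hF B hB D hD n m hPE (LT T) (by rw [hp1]; exact hA)
    (by rw [hp2]; exact hA)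
  rw [hp1, hp2] at hs
  have hfm := fmb ℓ M hM hℓ V₀ G E₀ hF B hSb D hD A hA
  have hx3 := (x3s ℓ M hM hℓ V₀ G E₀ hF B hSb D hD A hA κ).1
  have hz := (czb ℓ M hM hℓ V₀ G E₀ hF B hSb A).2.2.2.2.2.2.1
  have hy := hyc ℓ M hM hℓ V₀ G E₀ hF B hSb n m hPE A (fm ℓ E₀ B D A κ) T (hfm.1 κ) hF1
  -- finiteness
  have iM : Finite (MulAut V₀) :=
    Finite.of_injective (fun σ : MulAut V₀ => (σ : V₀ → V₀)) DFunLike.coe_injective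
  have iG : Fintype G := Fintype.ofFinite G
  have iM' : Fintype (MulAut V₀) := Fintype.ofFinite _
  have iV' : Fintype V₀ := Fintype.ofFinite _
  have iS' : Fintype (St E₀ A) := Fintype.ofFinite _
  have hn0 : (nS E₀ A : ℂ) ≠ 0 := by
    unfold nS
    exact_mod_cast Nat.card_pos.ne'
  have hl0 : (ℓ : ℂ) ≠ 0 := by exact_mod_cast (Fact.out : ℓ.Prime).ne_zero
  have hN0 : (Nat.card (B.C A) : ℂ) ≠ 0 := by exact_mod_cast Nat.card_pos.ne'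
  obtain ⟨X, hX⟩ : ∃ X, X = (H79.ch_finite B A).toFinset := ⟨_, rfl⟩
  have hXm : ∀ χ, χ ∈ X ↔ χ ∈ Ch B A := by
    intro χ
    rw [hX, Set.Finite.mem_toFinset]
  have hXs : ∀ f : (G → ℂ) → ℂ, ∑ᶠ χ ∈ Ch B A, f χ = ∑ χ ∈ X, f χ := by
    intro f
    rw [hX]
    exact finsum_mem_eq_finite_toFinset_sum _ _
  obtain ⟨Q, hQ⟩ : ∃ Q, Q = (Set.toFinite (QL E₀ (LT T))).toFinset := ⟨_, rfl⟩
  have hQm : ∀ w, w ∈ Q ↔ w ∈ QL E₀ (LT T) := by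
    intro w
    rw [hQ, Set.Finite.mem_toFinset]
  have hQs : ∀ f : MulAut V₀ × V₀ → ℂ, ∑ᶠ w ∈ QL E₀ (LT T), f w = ∑ w ∈ Q, f w := by
    intro f
    rw [hQ]
    exact finsum_mem_eq_finite_toFinset_sum _ _
  obtain ⟨S, hS⟩ : ∃ S, S = (Set.toFinite {w : MulAut V₀ × V₀ | w ∈ QL E₀ (LT T) ∧
    Nat.card A = ℓ ∧ mp w.1 A = A ∧ w.2 ∈ A}).toFinset := ⟨_, rfl⟩
  have hSm : ∀ w, w ∈ S ↔ w ∈ QL E₀ (LT T) ∧ Nat.card A = ℓ ∧ mp w.1 A = A ∧ w.2 ∈ A := by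
    intro w
    rw [hS, Set.Finite.mem_toFinset]
    rfl
  have hSs : ∀ f : MulAut V₀ × V₀ → ℂ, ∑ᶠ w ∈ {w : MulAut V₀ × V₀ | w ∈ QL E₀ (LT T) ∧
      Nat.card A = ℓ ∧ mp w.1 A = A ∧ w.2 ∈ A}, f w = ∑ w ∈ S, f w := by
    intro f
    rw [hS]
    exact finsum_mem_eq_finite_toFinset_sum _ _
  -- the conjugate of `SL`
  have hconj : ∀ χ ∈ X, starRingEnd ℂ (SL B m (LT T) χ χ) =
      (Nat.card (B.C A) : ℂ) ^ 2 * (((ℓ : ℂ) ^ 2 * nS E₀ A * nS E₀ A)⁻¹ *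
        ∑ w ∈ Q, D.D A χ (w.1 w.2) * starRingEnd ℂ (D.D A χ w.2) +
      (nS E₀ A : ℂ)⁻¹ * ∑ w ∈ S, nu B χ (w.1 w.2 * w.2⁻¹) * D.R A χ (ac B w.1⁻¹ χ)) := by
    intro χ hχ
    have hχ' := (hXm χ).1 hχ
    have h1 := hs χ hχ' χ hχ'
    rw [hQs, hSs] at h1
    rw [h1, map_mul, map_add, map_mul, map_mul, map_mul, map_sum, map_sum, map_inv₀, map_inv₀,
      map_mul, map_mul, map_pow, map_natCast, map_natCast, map_natCast, ← pow_two]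
    congr 3
    · refine Finset.sum_congr rfl fun w _ => ?_
      rw [map_mul, Complex.conj_conj, mul_comm]
    · refine Finset.sum_congr rfl fun w hw => ?_
      obtain ⟨w1, w2, w3, w4⟩ := (hSm w).1 hw
      have w5 : w.1 w.2 ∈ A := by
        rw [← w3]
        exact (mem_mp' w.1 A w.2).2 w4
      have hE : w.1⁻¹ ∈ E₀ := E₀.inv_mem w1.1
      have h2 : ac B w.1⁻¹ χ ∈ Ch B A := by
        have h3 := (((acb ℓ M hM hℓ V₀ G E₀ hF B hSb).2 A w.1⁻¹ hE).2.2.1 χ hχ').1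
        rwa [mp_inv w.1 A w3] at h3
      have h4 := ((hD.d6 A hA _ h2).2 χ hχ').2
      obtain ⟨z1, z2, z3, -⟩ := hz χ hχ'
      rw [map_mul, map_mul, Complex.conj_conj, h4, (z3 w.2 w4).1,
        ((z3 (w.1 w.2) w5).2.2 w.2⁻¹ (A.inv_mem w4))]
      ring
  -- the two parts
  have e1 : HY B m A (fm ℓ E₀ B D A κ) T = ((ℓ : ℂ) ^ 2 * nS E₀ A * nS E₀ A)⁻¹ *
        ∑ w ∈ Q, ∑ χ ∈ X, cv (fm ℓ E₀ B D A κ) χ *
          (D.D A χ (w.1 w.2) * starRingEnd ℂ (D.D A χ w.2)) +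
      (nS E₀ A : ℂ)⁻¹ * ∑ w ∈ S, ∑ χ ∈ X, cv (fm ℓ E₀ B D A κ) χ *
        (nu B χ (w.1 w.2 * w.2⁻¹) * D.R A χ (ac B w.1⁻¹ χ)) := by
    rw [hy, hXs, Finset.sum_comm (s := Q), Finset.sum_comm (s := S), Finset.mul_sum,
      Finset.mul_sum, Finset.mul_sum, ← Finset.sum_add_distrib]
    refine Finset.sum_congr rfl fun χ hχ => ?_
    rw [hconj χ hχ, ← Finset.mul_sum, ← Finset.mul_sum]
    field_simp
  have e2 : ∑ w ∈ Q, ∑ χ ∈ X, cv (fm ℓ E₀ B D A κ) χ *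
          (D.D A χ (w.1 w.2) * starRingEnd ℂ (D.D A χ w.2)) =
      (ux D.U A κ : ℚ) * (ℓ : ℂ) ^ 2 * ((nS E₀ A : ℂ) ^ 2 * (N12 E₀ κ L : ℕ)) := by
    have h1 : ∀ w : MulAut V₀ × V₀, ∑ χ ∈ X, cv (fm ℓ E₀ B D A κ) χ *
          (D.D A χ (w.1 w.2) * starRingEnd ℂ (D.D A χ w.2)) =
        (ux D.U A κ : ℚ) * (ℓ : ℂ) ^ 2 * (({v : St E₀ A × St E₀ A |
          w.2 = (v.2 : MulAut V₀) (w.1 w.2 * (v.1 : MulAut V₀) κ)}.ncard : ℕ) : ℂ) := by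
      intro w
      rw [← hXs]
      exact hx3 (w.1 w.2) w.2
    simp only [h1]
    rw [← Finset.mul_sum]
    congr 1
    have h2 := ncard_fib Q (QL E₀ (LT T)) hQm (fun (w : MulAut V₀ × V₀) (v : St E₀ A × St E₀ A) =>
      w.2 = (v.2 : MulAut V₀) (w.1 w.2 * (v.1 : MulAut V₀) κ))
    rw [h2, hcn]
    push_cast
    ring
  have e3 : ∑ w ∈ S, ∑ χ ∈ X, cv (fm ℓ E₀ B D A κ) χ *
        (nu B χ (w.1 w.2 * w.2⁻¹) * D.R A χ (ac B w.1⁻¹ χ)) =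
      (nS E₀ A : ℂ) * (ux D.U A κ : ℚ) * ((M12 ℓ E₀ D.fx κ L : ℚ) : ℂ) := by
    have h1 : ∀ w ∈ S, ∑ χ ∈ X, cv (fm ℓ E₀ B D A κ) χ *
        (nu B χ (w.1 w.2 * w.2⁻¹) * D.R A χ (ac B w.1⁻¹ χ)) =
        if pr ℓ E₀ A κ * (w.1 w.2 * w.2⁻¹) = 1 then
          (nS E₀ A : ℂ) * (ux D.U A κ : ℚ) * (((D.fx A w.1 : ℚ) : ℂ) - 1) else 0 := by
      intro w hw
      obtain ⟨w1, w2, w3, w4⟩ := (hSm w).1 hw
      have w5 : w.1 w.2 ∈ A := by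
        rw [← w3]
        exact (mem_mp' w.1 A w.2).2 w4
      have h2 := hD.d8 A hA w.1 w1.1 w3 (w.1 w.2 * w.2⁻¹) (A.mul_mem w5 (A.inv_mem w4)) κ
      rw [hXs] at h2
      rw [← h2]
      refine Finset.sum_congr rfl fun χ _ => ?_
      ring
    rw [Finset.sum_congr rfl h1, ← Finset.sum_filter, ← Finset.mul_sum]
    congr 1
    obtain ⟨R, hR⟩ : ∃ R, R = (Set.toFinite {w : E₀ × V₀ | Nat.card A = ℓ ∧
      mp w.1 A = A ∧ w.2 ∈ A ∧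
      w.1.1 w.2 = pr ℓ E₀ A κ * w.2 ∧ ∀ s ∈ L,
      w.1.1 (κ ^ (s.2.1 : ℕ) * s.2.2.1 * (w.2 ^ (s.1 : ℕ))⁻¹) =
        κ ^ (s.2.1 : ℕ) * s.2.2.1}).toFinset := ⟨_, rfl⟩
    have hRm : ∀ w, w ∈ R ↔ Nat.card A = ℓ ∧
      mp w.1 A = A ∧ w.2 ∈ A ∧
      w.1.1 w.2 = pr ℓ E₀ A κ * w.2 ∧ ∀ s ∈ L,
      w.1.1 (κ ^ (s.2.1 : ℕ) * s.2.2.1 * (w.2 ^ (s.1 : ℕ))⁻¹) =
        κ ^ (s.2.1 : ℕ) * s.2.2.1 := by
      intro w
      rw [hR, Set.Finite.mem_toFinset]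
      rfl
    have hMs : M12 ℓ E₀ D.fx κ L = ∑ w ∈ R, (D.fx A (w.1 : MulAut V₀) - 1) := by
      rw [hM12, hR]
      exact finsum_mem_eq_finite_toFinset_sum _ _
    rw [hMs]
    push_cast
    refine Finset.sum_bij' (fun w hw => ((⟨w.1⁻¹, E₀.inv_mem
        ((hSm w).1 (Finset.mem_filter.1 hw).1).1.1⟩ : E₀), w.1 w.2))
      (fun u _ => ((u.1 : MulAut V₀)⁻¹, (u.1 : MulAut V₀) u.2)) ?_ ?_ ?_ ?_ ?_
    · intro w hw
      obtain ⟨h2, h3⟩ := Finset.mem_filter.1 hw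
      obtain ⟨w1, w2, w3, w4⟩ := (hSm w).1 h2
      have w6 := ((hmQ w).1 w1).2
      rw [hRm]
      have hi : ∀ v, w.1⁻¹ (w.1 v) = v := fun v => by
        rw [MulAut.inv_apply]
        exact w.1.symm_apply_apply v
      refine ⟨w2, mp_inv w.1 A w3, ?_, ?_, ?_⟩
      · show w.1 w.2 ∈ A
        rw [← w3]
        exact (mem_mp' w.1 A w.2).2 w4
      · show w.1⁻¹ (w.1 w.2) = pr ℓ E₀ A κ * w.1 w.2
        rw [hi]
        rw [← mul_assoc] at h3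
        exact (eq_of_mul_inv_eq_one h3).symm
      · intro s hs'
        show w.1⁻¹ (κ ^ (s.2.1 : ℕ) * s.2.2.1 * ((w.1 w.2) ^ (s.1 : ℕ))⁻¹) =
          κ ^ (s.2.1 : ℕ) * s.2.2.1
        have h5 := w6 s hs'
        have h6 : κ ^ (s.2.1 : ℕ) * s.2.2.1 * ((w.1 w.2) ^ (s.1 : ℕ))⁻¹ =
            w.1 (κ ^ (s.2.1 : ℕ) * s.2.2.1) := by
          rw [mul_inv_eq_iff_eq_mul, ← map_pow, ← map_mul]
          exact h5.symm
        rw [h6, hi]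
    · intro u hu
      obtain ⟨u1, u2, u3, u4, u5⟩ := (hRm u).1 hu
      have hi : ∀ v, (u.1 : MulAut V₀)⁻¹ ((u.1 : MulAut V₀) v) = v := fun v => by
        rw [MulAut.inv_apply]
        exact (u.1 : MulAut V₀).symm_apply_apply v
      have u6 : (u.1 : MulAut V₀) u.2 ∈ A := by
        rw [← u2]
        exact (mem_mp' _ A u.2).2 u3
      rw [Finset.mem_filter, hSm, hmQ]
      refine ⟨⟨⟨E₀.inv_mem u.1.2, ?_⟩, u1, mp_inv _ A u2, u6⟩, ?_⟩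
      · intro s hs'
        show (u.1 : MulAut V₀)⁻¹ (κ ^ (s.2.1 : ℕ) * s.2.2.1 *
          ((u.1 : MulAut V₀) u.2) ^ (s.1 : ℕ)) = κ ^ (s.2.1 : ℕ) * s.2.2.1
        have h5 := u5 s hs'
        have h6 : κ ^ (s.2.1 : ℕ) * s.2.2.1 * ((u.1 : MulAut V₀) u.2) ^ (s.1 : ℕ) =
            (u.1 : MulAut V₀) (κ ^ (s.2.1 : ℕ) * s.2.2.1) := by
          rw [map_mul, map_inv, map_pow, mul_inv_eq_iff_eq_mul] at h5
          exact h5.symm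
        rw [h6, hi]
      · show pr ℓ E₀ A κ * ((u.1 : MulAut V₀)⁻¹ ((u.1 : MulAut V₀) u.2) *
          ((u.1 : MulAut V₀) u.2)⁻¹) = 1
        rw [hi]
        have h7 : (u.1 : MulAut V₀) u.2 = pr ℓ E₀ A κ * u.2 := u4
        rw [h7]
        group
    · intro w hw
      have hi : w.1⁻¹ (w.1 w.2) = w.2 := by
        rw [MulAut.inv_apply]
        exact w.1.symm_apply_apply _
      refine Prod.ext ?_ ?_
      · show (w.1⁻¹)⁻¹ = w.1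
        rw [inv_inv]
      · exact hi
    · intro u hu
      have hi : (u.1 : MulAut V₀)⁻¹ ((u.1 : MulAut V₀) u.2) = u.2 := by
        rw [MulAut.inv_apply]
        exact (u.1 : MulAut V₀).symm_apply_apply _
      refine Prod.ext ?_ ?_
      · refine Subtype.ext ?_
        show ((u.1 : MulAut V₀)⁻¹)⁻¹ = u.1
        rw [inv_inv]
      · exact hi
    · intro w hw
      obtain ⟨h2, h3⟩ := Finset.mem_filter.1 hw
      obtain ⟨w1, w2, w3, w4⟩ := (hSm w).1 h2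
      show ((D.fx A w.1 : ℚ) : ℂ) - 1 = ((D.fx A w.1⁻¹ : ℚ) : ℂ) - 1
      rw [fx_inv fmb acb hM hℓ hF hSb hD hA w1.1 w3]
  rw [e1, e2, e3]
  push_cast
  field_simp

end Pool.Agent.PP.SE.H55
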